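import Pool.Agent.Helper29.BL.GoalsB
import Pool.Agent.Helper29.BL.PS
import Pool.Agent.Helper29.BL.TMAP

/-!
# Project BL (MP_a41896_nt): packet HT (height of the translate form)
-/

namespace Pool.Agent.Helper93.BL

open Pool.Agent.Helper29.BL
open WeierstrassCurve Height Height.AdmissibleAbsValues Polynomial
open scoped Polynomial.Bivariate

noncomputable section

section maps

variable {R R' : Type} [CommRing R] [CommRing R']

/-- `Tr` and ring homomorphisms. -/
lemma map_Tr (f : R →+* R') (W₁ W₂ : WeierstrassCurve R) (m : ℕ) (F : R[X][Y]) (c₁ c₂ : R) :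
    (Tr W₁ W₂ m F c₁ c₂).map (mapRingHom f) =
      Tr (W₁.map f) (W₂.map f) m (F.map (mapRingHom f)) (f c₁) (f c₂) := by
  have h := map_TT (mapRingHom (mapRingHom f)) (W₁.map (cc R)) (W₂.map (cc R)) m
    (F.map (mapRingHom (cc R))) (cc R c₁) (cc R c₂) (C X) Y
  have hc : (mapRingHom (mapRingHom f)).comp (cc R) = (cc R').comp f := by
    ext r
    simp [cc]
  have hc' : ∀ r, mapRingHom (mapRingHom f) (cc R r) = cc R' (f r) := fun r => by
    rw [← RingHom.comp_apply, hc, RingHom.comp_apply]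
  have hX : mapRingHom (mapRingHom f) (C X) = C X := by simp
  have hY : mapRingHom (mapRingHom f) Y = Y := by simp
  rw [WeierstrassCurve.map_map, WeierstrassCurve.map_map, hc, hc', hc', hX, hY, Polynomial.map_map,
    Polynomial.mapRingHom_comp, hc] at h
  rw [Tr, Tr, WeierstrassCurve.map_map, WeierstrassCurve.map_map, Polynomial.map_map,
    Polynomial.mapRingHom_comp, h]
  rfl

/-- `TT` is homogeneous of degree `4` in the coefficients. -/
lemma TT_smul (W₁ W₂ : WeierstrassCurve R) (m : ℕ) (F : R[X][Y]) (a c₁ c₂ t₁ t₂ : R) :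
    TT W₁ W₂ m (C (C a) * F) c₁ c₂ t₁ t₂ = a ^ 4 * TT W₁ W₂ m F c₁ c₂ t₁ t₂ := by
  have h : BM W₁ W₂ m (C (C a) * F) c₁ c₂ t₁ t₂ = a • BM W₁ W₂ m F c₁ c₂ t₁ t₂ := by
    simp only [BM, Finset.smul_sum, smul_smul, coeff_C_mul]
    refine Finset.sum_congr rfl fun i _ => Finset.sum_congr rfl fun j _ => ?_
    congr 1
    ring
  rw [TT, TT, h, Matrix.det_smul]
  simp

lemma Tr_smul (W₁ W₂ : WeierstrassCurve R) (m : ℕ) (F : R[X][Y]) (a c₁ c₂ : R) :
    Tr W₁ W₂ m (C (C a) * F) c₁ c₂ = C (C (a ^ 4)) * Tr W₁ W₂ m F c₁ c₂ := by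
  have h : (C (C a) * F).map (mapRingHom (cc R)) =
      C (C (cc R a)) * F.map (mapRingHom (cc R)) := by
    simp
  rw [Tr, h, TT_smul, Tr]
  simp [cc]

lemma Tr_zero (W₁ W₂ : WeierstrassCurve R) (m : ℕ) (c₁ c₂ : R) :
    Tr W₁ W₂ m 0 c₁ c₂ = 0 := by
  have h := Tr_smul W₁ W₂ m (0 : R[X][Y]) 0 c₁ c₂
  simpa using h

/-- The universal polynomial of bidegree `(m, m)`. -/
def FU (K : Type) [Field K] (m : ℕ) : (MvPolynomial ((ℕ × ℕ) ⊕ Bool) K)[X][Y] :=
  ∑ j ∈ Finset.range (m + 1), monomial j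
    (∑ i ∈ Finset.range (m + 1), monomial i (MvPolynomial.X (Sum.inl (i, j))))

end maps

variable {K : Type} [Field K]

lemma FU_map (m : ℕ) (F : K[X][Y]) (hF : BD m F) (y : (ℕ × ℕ) ⊕ Bool → K)
    (hy : ∀ i j, y (Sum.inl (i, j)) = (F.coeff j).coeff i) :
    (FU K m).map (mapRingHom (MvPolynomial.eval y)) = F := by
  rw [FU, Polynomial.map_sum, F.as_sum_range' (m + 1) (Nat.lt_succ_of_le hF.1)]
  refine Finset.sum_congr rfl fun j _ => ?_
  rw [Polynomial.map_monomial, coe_mapRingHom, Polynomial.map_sum]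
  congr 1
  rw [(F.coeff j).as_sum_range' (m + 1) (Nat.lt_succ_of_le (hF.2 j))]
  refine Finset.sum_congr rfl fun i _ => ?_
  rw [Polynomial.map_monomial, MvPolynomial.eval_X, hy]

variable [AdmissibleAbsValues K]

/-- Heights of values of polynomials. -/
lemma h_eval {σ : Type} (p : MvPolynomial σ K) : ∃ C : ℝ, 0 ≤ C ∧ ∀ (y : σ → K) (H : ℝ), 0 ≤ H →
    (∀ i, logHeight₁ (y i) ≤ H) → logHeight₁ (MvPolynomial.eval y p) ≤ C * (1 + H) := by
  induction p using MvPolynomial.induction_on with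
  | C a =>
    refine ⟨logHeight₁ a, zero_le_logHeight₁ a, fun y H hH _ => ?_⟩
    rw [MvPolynomial.eval_C]
    nlinarith [zero_le_logHeight₁ a, mul_nonneg (zero_le_logHeight₁ a) hH]
  | add p q hp hq =>
    obtain ⟨A, hA, hp⟩ := hp
    obtain ⟨B, hB, hq⟩ := hq
    have hl : 0 ≤ (totalWeight K : ℝ) * Real.log 2 := by positivity
    refine ⟨A + B + totalWeight K * Real.log 2, by positivity, fun y H hH hy => ?_⟩
    rw [map_add]
    have h1 := logHeight₁_add_le (MvPolynomial.eval y p) (MvPolynomial.eval y q)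
    have h2 := hp y H hH hy
    have h3 := hq y H hH hy
    nlinarith [mul_nonneg hl hH]
  | mul_X p i hp =>
    obtain ⟨A, hA, hp⟩ := hp
    refine ⟨A + 1, by positivity, fun y H hH hy => ?_⟩
    rw [map_mul, MvPolynomial.eval_X]
    have h1 := logHeight₁_mul_le (MvPolynomial.eval y p) (y i)
    have h2 := hp y H hH hy
    have h3 := hy i
    linarith

lemma height_le_sum {ι : Type} [Fintype ι] (x : ι → K) : logHeight x ≤ ∑ i, logHeight₁ (x i) := by
  by_cases hx : x = 0
  · rw [hx, logHeight_zero]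
    exact Finset.sum_nonneg fun i _ => zero_le_logHeight₁ _
  · rw [← PS_log_iSup hx]
    simp_rw [← PS_posLog]
    rw [← PS_sum Finset.univ fun i _ => FS_posLog (x i)]
    refine PS_mono (FS_log_iSup hx) (FS.sum _ fun i _ => FS_posLog (x i)) fun v => ?_
    obtain ⟨i, hi⟩ := Function.ne_iff.mp hx
    have : Nonempty ι := ⟨i⟩
    obtain ⟨j, hj⟩ := exists_eq_ciSup_of_finite (f := fun i => v (x i))
    rw [← hj]
    refine (le_max_right 0 _ : Real.log (v (x j)) ≤ Real.posLog (v (x j))).trans ?_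
    exact Finset.single_le_sum (f := fun i => Real.posLog (v (x i)))
      (fun i _ => Real.posLog_nonneg) (Finset.mem_univ j)

lemma hp_smul (k : ℕ) (F : K[X][Y]) {a : K} (ha : a ≠ 0) : hp k (C (C a) * F) = hp k F := by
  rw [hp, hp, ← logHeight_smul_eq_logHeight
    (fun ij : Fin (k + 1) × Fin (k + 1) => (F.coeff ij.2).coeff ij.1) ha]
  congr 1
  funext ij
  simp [coeff_C_mul]

/-- **HT**. -/
theorem ht : HT := by
  intro K _ _ W₁ W₂ m
  have h := fun ij : Fin (8 * m + 1) × Fin (8 * m + 1) => h_eval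
    (((Tr (W₁.map (MvPolynomial.C (σ := (ℕ × ℕ) ⊕ Bool))) (W₂.map MvPolynomial.C) m (FU K m)
      (MvPolynomial.X (Sum.inr false)) (MvPolynomial.X (Sum.inr true))).coeff ij.2).coeff ij.1)
  choose B hB0 hB using h
  refine ⟨∑ ij, B ij, Finset.sum_nonneg fun ij _ => hB0 ij, fun F c₁ c₂ hF hT => ?_⟩
  have hF0 : F ≠ 0 := by
    rintro rfl
    exact hT (Tr_zero _ _ _ _ _)
  obtain ⟨s, hs⟩ := Function.ne_iff.mp (cvec_ne_zero hF hF0)
  have hs' : cvec m F s ≠ 0 := hs
  set a := (cvec m F s)⁻¹ with ha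
  have ha0 : a ≠ 0 := inv_ne_zero hs'
  rw [← hp_smul (8 * m) _ (pow_ne_zero 4 ha0), ← Tr_smul]
  set G : K[X][Y] := C (C a) * F with hG
  have hGF : ∀ i j, (G.coeff j).coeff i = a * (F.coeff j).coeff i := by
    intro i j
    rw [hG, coeff_C_mul, coeff_C_mul]
  have hGB : BD m G := by
    constructor
    · exact (natDegree_C_mul_le _ _).trans hF.1
    · intro j
      rw [hG, coeff_C_mul]
      exact (natDegree_C_mul_le _ _).trans (hF.2 j)
  let y : (ℕ × ℕ) ⊕ Bool → K := Sum.elim (fun p => (G.coeff p.2).coeff p.1)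
    (fun b => if b then c₂ else c₁)
  have hFU := FU_map m G hGB y fun i j => rfl
  have hid : (MvPolynomial.eval y).comp MvPolynomial.C = RingHom.id K := by
    ext r
    simp
  have hmap := map_Tr (MvPolynomial.eval y) (W₁.map MvPolynomial.C) (W₂.map MvPolynomial.C) m
    (FU K m) (MvPolynomial.X (Sum.inr false)) (MvPolynomial.X (Sum.inr true))
  rw [WeierstrassCurve.map_map, WeierstrassCurve.map_map, hid, WeierstrassCurve.map_id,
    WeierstrassCurve.map_id, hFU, MvPolynomial.eval_X, MvPolynomial.eval_X] at hmap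
  have hH : ∀ i, logHeight₁ (y i) ≤ hp m F + logHeight₁ c₁ + logHeight₁ c₂ := by
    have h0 : 0 ≤ hp m F := logHeight_nonneg _
    have h1 := zero_le_logHeight₁ c₁
    have h2 := zero_le_logHeight₁ c₂
    rintro (⟨i, j⟩ | b)
    · have hy : y (Sum.inl (i, j)) = (F.coeff j).coeff i / cvec m F s := by
        change (G.coeff j).coeff i = _
        rw [hGF, ha, mul_comm, div_eq_mul_inv]
      by_cases hij : i < m + 1 ∧ j < m + 1
      · have : logHeight₁ (y (Sum.inl (i, j))) ≤ hp m F := by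
          rw [hy, logHeight₁_div_eq_logHeight]
          have e : ![(F.coeff j).coeff i, cvec m F s] =
              cvec m F ∘ ![(⟨i, hij.1⟩, ⟨j, hij.2⟩), s] := by
            funext k
            fin_cases k <;> rfl
          rw [e]
          exact logHeight_comp_le _ _
        linarith
      · have : (F.coeff j).coeff i = 0 := by
          rw [not_and_or] at hij
          rcases hij with hi | hj
          · exact coeff_eq_zero_of_natDegree_lt (by have := hF.2 j; omega)
          · rw [coeff_eq_zero_of_natDegree_lt (p := F) (by have := hF.1; omega)]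
            simp
        rw [hy, this, zero_div, logHeight₁_zero]
        linarith
    · cases b
      · change logHeight₁ c₁ ≤ _
        linarith
      · change logHeight₁ c₂ ≤ _
        linarith
  have hH0 : 0 ≤ hp m F + logHeight₁ c₁ + logHeight₁ c₂ := by
    have h0 : 0 ≤ hp m F := logHeight_nonneg _
    have h1 := zero_le_logHeight₁ c₁
    have h2 := zero_le_logHeight₁ c₂
    linarith
  refine (height_le_sum _).trans ?_
  rw [Finset.sum_mul]
  refine Finset.sum_le_sum fun ij _ => ?_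
  have hh := hB ij y _ hH0 hH
  have e : ((Tr W₁ W₂ m G c₁ c₂).coeff ij.2).coeff ij.1 = MvPolynomial.eval y
      (((Tr (W₁.map (MvPolynomial.C (σ := (ℕ × ℕ) ⊕ Bool))) (W₂.map MvPolynomial.C) m (FU K m)
      (MvPolynomial.X (Sum.inr false)) (MvPolynomial.X (Sum.inr true))).coeff ij.2).coeff ij.1) := by
    rw [← coeff_mapF, hmap]
    rfl
  rw [e]
  linarith

end

end Pool.Agent.Helper93.BL
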